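import Pool.Agent.H59.UM.Common

set_option autoImplicit false

namespace Pool.Agent.H37.UM

open PowerSeries Finset

private theorem apx_choose (s k : ℕ) (hs : 3 ≤ s) :
    (((s : ℝ) - 1) ^ k) / (k.factorial : ℝ) ≤ ((s - 2 + k).choose k : ℝ) := by
  have h1 : (s - 1) ^ k ≤ (s - 1).ascFactorial k := Nat.pow_succ_le_ascFactorial (s - 1) k
  have h2 : (s - 1).ascFactorial k = k.factorial * (s - 2 + k).choose k := by
    have := Nat.ascFactorial_eq_factorial_mul_choose (s - 2) k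
    rwa [show s - 2 + 1 = s - 1 by omega] at this
  rw [h2] at h1
  have hk : (0 : ℝ) < (k.factorial : ℝ) := by exact_mod_cast Nat.factorial_pos k
  rw [div_le_iff₀ hk]
  have h3 : (((s - 1 : ℕ) : ℝ)) ^ k ≤ (k.factorial : ℝ) * ((s - 2 + k).choose k : ℝ) := by
    exact_mod_cast h1
  have h4 : ((s - 1 : ℕ) : ℝ) = (s : ℝ) - 1 := by
    have : 1 ≤ s := by omega
    push_cast [this]; ring
  rw [h4] at h3
  linarith

theorem APX_thm (hM2 : M2Stmt) (hLBA : LBAStmt) (hCNT : CNTStmt) (hINA : INAStmt) : APXStmt := by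
  intro N k hN hk hk2 hkN
  obtain ⟨M, hM⟩ : ∃ M, M = (k + 1) / 2 := ⟨_, rfl⟩
  obtain ⟨s, hs⟩ : ∃ s, s = ((Icc 1 N).filter (fun m => k < 2 * op m - 1)).card := ⟨_, rfl⟩
  have hcnt := hCNT N k M (by omega) hkN hM
  rw [← hs] at hcnt
  obtain ⟨r, hr⟩ : ∃ r, r = √((k : ℝ) / (N + k)) := ⟨_, rfl⟩
  have hNR : (1300 : ℝ) ≤ (N : ℝ) := by exact_mod_cast hN
  have hkR : (70 : ℝ) < (k : ℝ) := by exact_mod_cast hk
  have hkNR : 4 * (k : ℝ) ≤ N := by exact_mod_cast hkN
  have hNpos : (0 : ℝ) < N := by linarith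
  have hkpos : (0 : ℝ) < k := by linarith
  have hNk : (0 : ℝ) < (N : ℝ) + k := by linarith
  have hr0 : 0 < r := by rw [hr]; apply Real.sqrt_pos.2; positivity
  have hrsq : r ^ 2 = (k : ℝ) / (N + k) := by rw [hr, Real.sq_sqrt (by positivity)]
  have hr5 : r ^ 2 ≤ 1 / 5 := by
    rw [hrsq, div_le_div_iff₀ hNk (by norm_num)]; linarith
  have hr448 : r ≤ 0.448 := by
    by_contra h
    push Not at h
    nlinarith
  have hr1 : r < 1 := by linarith
  have h1r : 0 < 1 - r := by linarith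
  have hlogN : 0 ≤ Real.log (N : ℝ) := Real.log_nonneg (by linarith)
  have hlog2 : 0 < Real.log 2 := Real.log_pos (by norm_num)
  have hterm : 0 ≤ (Real.log N / Real.log 2 + 1) * (r / (1 - r)) := by positivity
  have hlogf : 0 ≤ Real.log (k.factorial : ℝ) := by
    apply Real.log_nonneg
    exact_mod_cast Nat.factorial_pos k
  have hN1 : 0 ≤ (N : ℝ) / 2 * Real.log (1 + k / N) := by
    apply mul_nonneg (by positivity)
    apply Real.log_nonneg
    have : 0 ≤ (k : ℝ) / N := by positivity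
    linarith
  have hlog10 : 0 ≤ Real.log (10 * (N : ℝ) ^ 2) := by
    apply Real.log_nonneg
    nlinarith
  have hsqrt : 0 ≤ 2.5651 * √(N : ℝ) := by positivity
  have hs3 : 3 ≤ s := by
    by_contra hcon
    have h2 : (s : ℝ) ≤ 3 := by
      have : s ≤ 3 := by omega
      exact_mod_cast this
    have h := hINA N k M 3 r hN hk hk2 hkN hM hr (by linarith)
    have h5 : Real.log 5 ≤ Real.log (1 + N / k) := by
      apply Real.log_le_log (by norm_num)
      have : 4 ≤ (N : ℝ) / k := by rw [le_div_iff₀ hkpos]; linarith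
      linarith
    have h6 : (k : ℝ) / 2 * Real.log 5 ≤ k * Real.log (3 - 1) := by
      have h7 : (k : ℝ) / 2 * Real.log 5 ≤ k / 2 * Real.log (1 + N / k) := by gcongr
      linarith
    have h8 : Real.log 4 < Real.log 5 := Real.log_lt_log (by norm_num) (by norm_num)
    have h9 : Real.log 4 = 2 * Real.log 2 := by
      rw [show (4 : ℝ) = 2 ^ 2 by norm_num, Real.log_pow]; norm_num
    rw [show (3 : ℝ) - 1 = 2 by norm_num] at h6
    nlinarith
  have hina := hINA N k M s r hN hk hk2 hkN hM hr hcnt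
  have hlba := hLBA N k s hs hs3
  have hch := apx_choose s k hs3
  have hs3R : (3 : ℝ) ≤ (s : ℝ) := by exact_mod_cast hs3
  have hdf : ((s : ℝ) - 1) ^ k / (k.factorial : ℝ) ≤ ((df (T N) k : ℤ) : ℝ) := by
    refine le_trans hch ?_
    have : (((s - 2 + k).choose k : ℤ) : ℝ) ≤ ((df (T N) k : ℤ) : ℝ) := by exact_mod_cast hlba
    simpa using this
  -- the common bound
  set Z : ℝ := (r ^ k)⁻¹ * (1 - r ^ 2) ^ (-(N : ℝ) / 2) *
      Real.exp (2.5651 * √(N : ℝ) + (Real.log N / Real.log 2 + 1) * (r / (1 - r))) with hZ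
  have hZ0 : 0 ≤ Z := by
    have : 0 ≤ (1 - r ^ 2) ^ (-(N : ℝ) / 2) := Real.rpow_nonneg (by nlinarith) _
    positivity
  have hfac : (1 + r) * ((1 - r) ^ 2)⁻¹ ≤ 4.8 := by
    rw [← div_eq_mul_inv, div_le_iff₀ (by positivity)]
    nlinarith [sq_nonneg (r - 0.448)]
  have hb : ∀ j, N ≤ j + 2 → j ≤ N → |((df (U j N * Q j) k : ℤ) : ℝ)| ≤ 4.8 * Z := by
    intro j h1 h2
    have h := hM2 N j k r (by omega) h1 h2 hr0 hr1
    refine le_trans h ?_
    calc (1 + r) * ((1 - r) ^ 2)⁻¹ * (r ^ k)⁻¹ * (1 - r ^ 2) ^ (-(N : ℝ) / 2) *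
        Real.exp (2.5651 * √(N : ℝ) + (Real.log N / Real.log 2 + 1) * (r / (1 - r)))
        = ((1 + r) * ((1 - r) ^ 2)⁻¹) * Z := by rw [hZ]; ring
      _ ≤ 4.8 * Z := mul_le_mul_of_nonneg_right hfac hZ0
  have hZle : 10 * (N : ℝ) ^ 2 * Z ≤ ((s : ℝ) - 1) ^ k / (k.factorial : ℝ) := by
    have hs1 : 0 < (s : ℝ) - 1 := by linarith
    have hf : (0 : ℝ) < (k.factorial : ℝ) := by exact_mod_cast Nat.factorial_pos k
    have e1 : ((s : ℝ) - 1) ^ k / (k.factorial : ℝ) =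
        Real.exp (k * Real.log ((s : ℝ) - 1) - Real.log (k.factorial : ℝ)) := by
      rw [Real.exp_sub, Real.exp_log hf, Real.exp_nat_mul, Real.exp_log hs1]
    have e2 : (r ^ k)⁻¹ = Real.exp ((k : ℝ) / 2 * Real.log (1 + N / k)) := by
      have h1 : Real.log r = -(1 / 2) * Real.log (1 + N / k) := by
        have h2 : 2 * Real.log r = Real.log (r ^ 2) := by rw [Real.log_pow]; norm_num
        have h3 : (k : ℝ) / ((N : ℝ) + k) = (1 + (N : ℝ) / (k : ℝ))⁻¹ := by
          have h4 : 1 + (N : ℝ) / (k : ℝ) = ((k : ℝ) + N) / k := by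
            rw [add_div, div_self hkpos.ne']
          rw [h4, inv_div, add_comm]
        rw [hrsq, h3, Real.log_inv] at h2
        linarith
      rw [← Real.exp_log (show (0 : ℝ) < (r ^ k)⁻¹ by positivity), Real.log_inv, Real.log_pow, h1]
      congr 1
      ring
    have e3 : (1 - r ^ 2) ^ (-(N : ℝ) / 2) = Real.exp ((N : ℝ) / 2 * Real.log (1 + k / N)) := by
      have h3 : 1 - (k : ℝ) / ((N : ℝ) + k) = (1 + (k : ℝ) / (N : ℝ))⁻¹ := by
        have h4 : 1 + (k : ℝ) / (N : ℝ) = ((N : ℝ) + k) / N := by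
          rw [add_div, div_self hNpos.ne']
        have h5 : 1 - (k : ℝ) / ((N : ℝ) + k) = ((N : ℝ) + k) / ((N : ℝ) + k) - k / ((N : ℝ) + k) := by
          rw [div_self hNk.ne']
        rw [h4, inv_div, h5, ← sub_div, add_sub_cancel_right]
      rw [Real.rpow_def_of_pos (by nlinarith), hrsq, h3, Real.log_inv]
      congr 1
      ring
    have e4 : 10 * (N : ℝ) ^ 2 = Real.exp (Real.log (10 * (N : ℝ) ^ 2)) :=
      (Real.exp_log (by positivity)).symm
    rw [e1, hZ, e2, e3, e4, ← Real.exp_add, ← Real.exp_add, ← Real.exp_add]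
    apply Real.exp_le_exp.2
    linarith
  have c1 := hb (N - 2) (by omega) (by omega)
  have c2 := hb (N - 1) (by omega) (by omega)
  have c3 := hb N (by omega) le_rfl
  rw [H59c.U_self, one_mul] at c3
  unfold ERR
  have key : (((N : ℤ) ^ 2 * (|df (U (N - 2) N * Q (N - 2)) k| +
      |df (U (N - 1) N * Q (N - 1)) k| + |df (Q N) k|) : ℤ) : ℝ) ≤
      ((2 * df (T N) k : ℤ) : ℝ) := by
    push_cast
    have hN2 : (0 : ℝ) ≤ (N : ℝ) ^ 2 := by positivity
    have hN2Z : 0 ≤ (N : ℝ) ^ 2 * Z := by positivity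
    calc (N : ℝ) ^ 2 * (|((df (U (N - 2) N * Q (N - 2)) k : ℤ) : ℝ)| +
        |((df (U (N - 1) N * Q (N - 1)) k : ℤ) : ℝ)| + |((df (Q N) k : ℤ) : ℝ)|)
        ≤ (N : ℝ) ^ 2 * (14.4 * Z) := mul_le_mul_of_nonneg_left (by linarith) hN2
      _ ≤ 2 * ((df (T N) k : ℤ) : ℝ) := by
        have : (N : ℝ) ^ 2 * (14.4 * Z) = 14.4 * ((N : ℝ) ^ 2 * Z) := by ring
        have : 10 * (N : ℝ) ^ 2 * Z = 10 * ((N : ℝ) ^ 2 * Z) := by ring
        linarith
  exact_mod_cast key

end Pool.Agent.H37.UM
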