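import Pool.Agent.H59.UM.Common

set_option autoImplicit false

namespace Pool.Agent.H37.UM.H59c

open PowerSeries Finset

/-- facts on `b2 N` for `N ≥ 250` -/
theorem b2_facts (N : ℕ) (hN : 250 ≤ N) :
    ∃ t : ℕ, 1 ≤ t ∧ b2 N = 6 * t ∧ 6 * t + 100 ≤ N ∧ √(N : ℝ) < ((6 * t : ℕ) : ℝ) ∧
      ((6 * t : ℕ) : ℝ) ≤ √(N : ℝ) + 6 := by
  have h1 : Nat.sqrt N * Nat.sqrt N ≤ N := Nat.sqrt_le N
  have h2 : N < (Nat.sqrt N + 1) * (Nat.sqrt N + 1) := Nat.lt_succ_sqrt N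
  have h15 : 15 ≤ Nat.sqrt N := by
    rw [Nat.le_sqrt]; omega
  refine ⟨Nat.sqrt N / 6 + 1, by omega, rfl, ?_, ?_, ?_⟩
  · have : 15 * Nat.sqrt N ≤ N := le_trans (Nat.mul_le_mul_right _ h15) h1
    omega
  · have h3 : √(N : ℝ) < (Nat.sqrt N : ℝ) + 1 := by
      rw [Real.sqrt_lt' (by positivity)]
      have : (N : ℝ) < ((Nat.sqrt N : ℝ) + 1) * ((Nat.sqrt N : ℝ) + 1) := by exact_mod_cast h2
      nlinarith
    have h4 : Nat.sqrt N + 1 ≤ 6 * (Nat.sqrt N / 6 + 1) := by omega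
    have h5 : ((Nat.sqrt N : ℝ) + 1) ≤ ((6 * (Nat.sqrt N / 6 + 1) : ℕ) : ℝ) := by
      exact_mod_cast h4
    linarith
  · have h3 : (Nat.sqrt N : ℝ) ≤ √(N : ℝ) := by
      apply Real.le_sqrt_of_sq_le
      have : (Nat.sqrt N : ℝ) * (Nat.sqrt N : ℝ) ≤ N := by exact_mod_cast h1
      nlinarith
    have h4 : 6 * (Nat.sqrt N / 6 + 1) ≤ Nat.sqrt N + 6 := by omega
    have h5 : ((6 * (Nat.sqrt N / 6 + 1) : ℕ) : ℝ) ≤ (Nat.sqrt N : ℝ) + 6 := by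
      exact_mod_cast h4
    linarith

/-- lower bound for the degree of the block of `b2 N` factors -/
theorem dU_b2 (hDUB : DUBStmt) (N : ℕ) (hN : 250 ≤ N) :
    √(N : ℝ) * (5 * N - 5 * √(N : ℝ) + 13) ≤ 4 * (dU (N - b2 N) N : ℝ) := by
  obtain ⟨t, ht, hb, h100, hlo, hhi⟩ := b2_facts N hN
  have h := hDUB.2.1 t N h100
  rw [hb]
  have hNR : (250 : ℝ) ≤ (N : ℝ) := by exact_mod_cast hN
  have hsq : √(N : ℝ) * √(N : ℝ) = N := Real.mul_self_sqrt (by linarith)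
  have hs15 : (15 : ℝ) ≤ √(N : ℝ) := by
    apply Real.le_sqrt_of_sq_le; linarith
  have hR : ((6 * t : ℕ) : ℝ) * (5 * N + 13) ≤
      4 * (dU (N - 6 * t) N : ℝ) + 5 * ((6 * t : ℕ) : ℝ) ^ 2 := by
    exact_mod_cast h
  set b : ℝ := ((6 * t : ℕ) : ℝ)
  set s : ℝ := √(N : ℝ)
  have h1 : s * (5 * N - 5 * s + 13) ≤ b * (5 * N - 5 * b + 13) := by
    have : b * (5 * N - 5 * b + 13) - s * (5 * N - 5 * s + 13) =
        (b - s) * (5 * N + 13 - 5 * (b + s)) := by ring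
    have h2 : 0 ≤ (b - s) * (5 * N + 13 - 5 * (b + s)) := by
      apply mul_nonneg (by linarith)
      nlinarith
    linarith
  nlinarith

end Pool.Agent.H37.UM.H59c
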