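import Pool.Agent.H59.UM.B2

set_option autoImplicit false

namespace Pool.Agent.H37.UM

open PowerSeries Finset

/-- the polynomial inequality -/
private theorem cx_poly (s : ℝ) (hs : 15 ≤ s) :
    0 ≤ (2 * (0.26 * s ^ 3) - 1) * (2 * ((5 * s ^ 3 - 5 * s ^ 2 + 13 * s) / 4) + 1 -
      2 * (0.26 * s ^ 3)) - 0.02 * ((5 * s ^ 3 - 5 * s ^ 2 + 13 * s) / 4) ^ 2 -
      (0.7716 * s ^ 6 + 2.4 * s ^ 4) := by
  obtain ⟨u, hu, rfl⟩ : ∃ u, 0 ≤ u ∧ s = 15 + u := ⟨s - 15, by linarith, by ring⟩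
  have : (2 * (0.26 * (15 + u) ^ 3) - 1) * (2 * ((5 * (15 + u) ^ 3 - 5 * (15 + u) ^ 2 +
      13 * (15 + u)) / 4) + 1 - 2 * (0.26 * (15 + u) ^ 3)) -
      0.02 * ((5 * (15 + u) ^ 3 - 5 * (15 + u) ^ 2 + 13 * (15 + u)) / 4) ^ 2 -
      (0.7716 * (15 + u) ^ 6 + 2.4 * (15 + u) ^ 4) =
      1678938.96875 + 729688.225 * u + 131427.995 * u ^ 2 + 12567.1275 * u ^ 3 +
        673.255 * u ^ 4 + 19.17 * u ^ 5 + 0.22675 * u ^ 6 := by
    ring
  rw [this]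
  positivity

/-- monotonicity in `B` -/
private theorem cx_mono (s B : ℝ) (hs : 15 ≤ s) (hlo : (5 * s ^ 3 - 5 * s ^ 2 + 13 * s) / 4 ≤ B)
    (hhi : B ≤ 2 * (s + 6) * s ^ 2) :
    0.7716 * s ^ 6 + 2.4 * s ^ 4 ≤
      (2 * (0.26 * s ^ 3) - 1) * (2 * B + 1 - 2 * (0.26 * s ^ 3)) - 0.02 * B ^ 2 := by
  have h := cx_poly s hs
  set A : ℝ := (5 * s ^ 3 - 5 * s ^ 2 + 13 * s) / 4 with hA
  have e : (2 * (0.26 * s ^ 3) - 1) * (2 * B + 1 - 2 * (0.26 * s ^ 3)) - 0.02 * B ^ 2 -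
      ((2 * (0.26 * s ^ 3) - 1) * (2 * A + 1 - 2 * (0.26 * s ^ 3)) - 0.02 * A ^ 2) =
      (B - A) * (2 * (2 * (0.26 * s ^ 3) - 1) - 0.02 * (A + B)) := by ring
  have h2 : 225 ≤ s ^ 2 := by nlinarith
  have h3 : 15 * s ^ 2 ≤ s ^ 3 := by nlinarith [sq_nonneg s]
  have h4 : 0 ≤ (B - A) * (2 * (2 * (0.26 * s ^ 3) - 1) - 0.02 * (A + B)) := by
    apply mul_nonneg (by linarith)
    have h5 : 2 * (s + 6) * s ^ 2 = 2 * s ^ 3 + 12 * s ^ 2 := by ring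
    rw [h5] at hhi
    linarith
  linarith

theorem CX_thm (hM1 : M1Stmt) (hCB : CBStmt) (hMOA : MOAStmt) (hTU : TUStmt) (hSG : SGStmt)
    (_hVA : VAStmt) (hDUB : DUBStmt) (hIC : ICStmt) (hUU : UUStmt) : CXStmt := by
  intro N k hN hk hkl
  have hNR : (250 : ℝ) ≤ (N : ℝ) := by exact_mod_cast hN
  have hNpos : (0 : ℝ) < N := by linarith
  have hN0 : (0 : ℝ) ≤ N := hNpos.le
  obtain ⟨s, hs⟩ : ∃ s : ℝ, s = √(N : ℝ) := ⟨_, rfl⟩
  have hsq : s ^ 2 = N := by rw [hs]; exact Real.sq_sqrt hN0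
  have hs15 : (15 : ℝ) ≤ s := by
    rw [hs]; apply Real.le_sqrt_of_sq_le; linarith
  obtain ⟨t, ht, hb, h100, hlo, hhi⟩ := H59c.b2_facts N hN
  have hdU := H59c.dU_b2 hDUB N hN
  have hIC' := hIC N _ hN rfl
  rw [hb] at hkl hdU hIC'
  rw [← hs] at hlo hhi hdU
  obtain ⟨b, hbdef⟩ : ∃ b : ℝ, b = ((6 * t : ℕ) : ℝ) := ⟨_, rfl⟩
  rw [← hbdef] at hlo hhi hIC'
  obtain ⟨B, hB⟩ : ∃ B : ℝ, B = (dU (N - 6 * t) N : ℝ) := ⟨_, rfl⟩
  rw [← hB] at hdU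
  have hBhi : B ≤ 2 * b * N := by
    have := hDUB.2.2 (6 * t) N (by omega)
    rw [hB, hbdef]
    exact_mod_cast this
  have hBhi' : B ≤ 2 * (s + 6) * s ^ 2 := by
    rw [hsq]
    refine le_trans hBhi ?_
    gcongr
  have hBlo : (5 * s ^ 3 - 5 * s ^ 2 + 13 * s) / 4 ≤ B := by
    rw [← hsq] at hdU
    have : s * (5 * s ^ 2 - 5 * s + 13) = 5 * s ^ 3 - 5 * s ^ 2 + 13 * s := by ring
    linarith
  have hs2 : 225 ≤ s ^ 2 := by nlinarith
  have hs3 : 15 * s ^ 2 ≤ s ^ 3 := by nlinarith [sq_nonneg s]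
  have hBpos : 0 < B := by linarith
  -- the value x
  have hdg : dU (N - 6 * t) N + dg (N - 6 * t) = dg N := hUU.2.2.2.2.2.1 0 (N - 6 * t) N
    (by omega) (by omega)
  have hdgR : B + (dg (N - 6 * t) : ℝ) = (dg N : ℝ) := by
    rw [hB]; exact_mod_cast hdg
  obtain ⟨x, hx⟩ : ∃ x : ℝ, x = (dg N : ℝ) + 1 - 2 * k := ⟨_, rfl⟩
  have hx1 : 1 ≤ x := by
    have : (2 : ℝ) * k ≤ dg N := by exact_mod_cast hk
    rw [hx]; linarith
  have hB0 : B0 N = 0.26 * s ^ 3 := by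
    unfold B0
    rw [← hs, ← hsq]; ring
  have hxB : x ≤ B + 1 - 2 * (0.26 * s ^ 3) := by
    rw [hB0] at hkl
    rw [hx]; linarith
  have hcb := hCB t N k B x ht h100 hBpos (by rw [hB]; linarith) hk hx
  -- lower bound for the bracket
  have hsg := hSG.1 (N - 6 * t)
  have hNt : ((N - 6 * t : ℕ) : ℝ) ≤ N := by exact_mod_cast Nat.sub_le N (6 * t)
  have hsg6 : 12 * sg (N - 6 * t) ≤ 0.7716 * s ^ 6 + 2.4 * s ^ 4 := by
    have h3 : ((N - 6 * t : ℕ) : ℝ) ^ 3 ≤ (N : ℝ) ^ 3 := by gcongr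
    have h2 : ((N - 6 * t : ℕ) : ℝ) ^ 2 ≤ (N : ℝ) ^ 2 := by gcongr
    have e3 : (N : ℝ) ^ 3 = s ^ 6 := by rw [← hsq]; ring
    have e2 : (N : ℝ) ^ 2 = s ^ 4 := by rw [← hsq]; ring
    rw [e3] at h3
    rw [e2] at h2
    linarith
  have hmono := cx_mono s B hs15 hBlo hBhi'
  have hbr : 0.02 * B ^ 2 ≤ B ^ 2 - 12 * sg (N - 6 * t) - x ^ 2 := by
    have hx2 : x ^ 2 ≤ (B + 1 - 2 * (0.26 * s ^ 3)) ^ 2 := by
      apply pow_le_pow_left₀ (by linarith) hxB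
    have e : B ^ 2 - (B + 1 - 2 * (0.26 * s ^ 3)) ^ 2 =
        (2 * (0.26 * s ^ 3) - 1) * (2 * B + 1 - 2 * (0.26 * s ^ 3)) := by ring
    linarith
  have hbpos : 0 < b := by linarith
  have hlow : 1 / (200 * b * N) ≤ x * (B ^ 2 - 12 * sg (N - 6 * t) - x ^ 2) / (0.385 * B ^ 3) := by
    have h1 : 0.02 * B ^ 2 ≤ x * (B ^ 2 - 12 * sg (N - 6 * t) - x ^ 2) := by
      have h2 : 0 ≤ 0.02 * B ^ 2 := by positivity
      nlinarith
    have h3 : 1 / (200 * b * N) ≤ 0.02 * B ^ 2 / (0.385 * B ^ 3) := by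
      rw [div_le_div_iff₀ (by positivity) (by positivity)]
      have h4 : 0.385 * B ≤ 0.02 * (200 * b * N) := by
        have : 0.02 * (200 * b * N) = 2 * (2 * b * N) := by ring
        have h0 : 0 ≤ b * (N : ℝ) := by positivity
        nlinarith
      have h5 := mul_le_mul_of_nonneg_left h4 (show 0 ≤ B ^ 2 by positivity)
      nlinarith
    refine le_trans h3 ?_
    gcongr
  have hfpos : (0 : ℝ) < ((N - 6 * t).factorial : ℝ) := by
    exact_mod_cast Nat.factorial_pos _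
  have hdf : ((N - 6 * t).factorial : ℝ) * (1 / (200 * b * N)) ≤ ((df (T N) k : ℤ) : ℝ) := by
    refine le_trans ?_ hcb
    gcongr
  -- the upper bound
  obtain ⟨q, hq⟩ : ∃ q : ℝ, q = 1 - 2 / (N : ℝ) := ⟨_, rfl⟩
  rw [← hq] at hIC'
  have h2N : 2 / (N : ℝ) ≤ 0.01 := by rw [div_le_iff₀ hNpos]; linarith
  have h2N' : 0 < 2 / (N : ℝ) := by positivity
  have hq0 : 0 < q := by rw [hq]; linarith
  have hq1 : q < 1 := by rw [hq]; linarith
  refine H59c.err_of hM1 N k q (by omega) hq0 hq1 (le_trans ?_ hdf)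
  have htu := hTU N q hq0 hq1.le
  have hqk : (q ^ k)⁻¹ * q ^ ((dg N : ℝ) / 2) ≤ 1 := by
    have h1 : q ^ ((dg N : ℝ) / 2) ≤ q ^ (k : ℝ) := by
      apply Real.rpow_le_rpow_of_exponent_ge hq0 hq1.le
      have : (2 : ℝ) * k ≤ dg N := by exact_mod_cast hk
      linarith
    rw [Real.rpow_natCast] at h1
    have h2 : 0 < q ^ k := by positivity
    rw [inv_mul_le_iff₀ h2]
    linarith
  have hfac : (N.factorial : ℝ) ≤ Real.exp (b * Real.log N) * ((N - 6 * t).factorial : ℝ) := by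
    have h1 : (N - 6 * t).factorial * N.descFactorial (6 * t) = N.factorial :=
      Nat.factorial_mul_descFactorial (by omega)
    have h2 : N.descFactorial (6 * t) ≤ N ^ (6 * t) := Nat.descFactorial_le_pow N (6 * t)
    have h3 : Real.exp (b * Real.log N) = (N : ℝ) ^ (6 * t) := by
      rw [hbdef, Real.exp_nat_mul, Real.exp_log hNpos]
    rw [h3]
    have h4 : N.factorial ≤ N ^ (6 * t) * (N - 6 * t).factorial := by
      rw [← h1, mul_comm]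
      exact Nat.mul_le_mul_right _ h2
    exact_mod_cast h4
  have hsgN := hSG.1 N
  obtain ⟨S, hS⟩ : ∃ S : ℝ, S = Real.log (1 / q) := ⟨_, rfl⟩
  have hSq : (Real.log q) ^ 2 = S ^ 2 := by
    rw [hS, one_div, Real.log_inv]; ring
  rw [← hS] at hIC'
  rw [hSq] at htu
  have hexp1 : Real.exp (S ^ 2 * sg N / 2) ≤
      Real.exp (S ^ 2 * (0.0643 * (N : ℝ) ^ 3 + 0.2 * (N : ℝ) ^ 2) / 2) := by
    apply Real.exp_le_exp.2
    gcongr
  have hpow0 : 0 ≤ q ^ ((dg N : ℝ) / 2) := Real.rpow_nonneg hq0.le _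
  have hqk0 : 0 < (q ^ k)⁻¹ := by positivity
  obtain ⟨W, hW⟩ : ∃ W : ℝ, W = S ^ 2 * (0.0643 * (N : ℝ) ^ 3 + 0.2 * (N : ℝ) ^ 2) / 2 :=
    ⟨_, rfl⟩
  rw [← hW] at hexp1 hIC'
  have hTe : (q ^ k)⁻¹ * Te N q ≤ Real.exp (b * Real.log N) * ((N - 6 * t).factorial : ℝ) *
      Real.exp W := by
    calc (q ^ k)⁻¹ * Te N q ≤ (q ^ k)⁻¹ * ((N.factorial : ℝ) * q ^ ((dg N : ℝ) / 2) *
          Real.exp (S ^ 2 * sg N / 2)) := mul_le_mul_of_nonneg_left htu hqk0.le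
      _ = ((q ^ k)⁻¹ * q ^ ((dg N : ℝ) / 2)) * ((N.factorial : ℝ) *
          Real.exp (S ^ 2 * sg N / 2)) := by ring
      _ ≤ 1 * ((N.factorial : ℝ) * Real.exp (S ^ 2 * sg N / 2)) := by
          apply mul_le_mul_of_nonneg_right hqk (by positivity)
      _ ≤ 1 * ((Real.exp (b * Real.log N) * ((N - 6 * t).factorial : ℝ)) * Real.exp W) := by
          gcongr
      _ = _ := by ring
  have hN200 : (0 : ℝ) < 200 * b * N := by positivity
  calc 3 * (N : ℝ) ^ 2 * ((q ^ k)⁻¹ * Te N q * Real.exp (-A1 N q))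
      ≤ 3 * (N : ℝ) ^ 2 * ((Real.exp (b * Real.log N) * ((N - 6 * t).factorial : ℝ) *
        Real.exp W) * Real.exp (-A1 N q)) := by
        gcongr
    _ = ((N - 6 * t).factorial : ℝ) * (3 * (N : ℝ) ^ 2 * (Real.exp (b * Real.log N) *
        Real.exp W * Real.exp (-A1 N q))) := by ring
    _ ≤ ((N - 6 * t).factorial : ℝ) * (1 / (200 * b * N)) := by
        apply mul_le_mul_of_nonneg_left _ hfpos.le
        have e1 : 3 * (N : ℝ) ^ 2 = Real.exp (Real.log (3 * (N : ℝ) ^ 2)) :=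
          (Real.exp_log (by positivity)).symm
        have e2 : 1 / (200 * b * N) = Real.exp (-Real.log (200 * b * N)) := by
          rw [Real.exp_neg, Real.exp_log hN200, one_div]
        rw [e2, e1, ← Real.exp_add, ← Real.exp_add, ← Real.exp_add]
        apply Real.exp_le_exp.2
        linarith

end Pool.Agent.H37.UM
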