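import Pool.Agent.H37.UM.Stmts

set_option autoImplicit false

namespace Pool.Agent.H37.UM.H59c

open PowerSeries Finset

theorem U_self (N : ℕ) : U N N = 1 := by simp [U]

theorem err_of (h : M1Stmt) (N k : ℕ) (r : ℝ) (hN : 3 ≤ N) (hr : 0 < r) (hr1 : r < 1)
    (hh : 3 * (N : ℝ) ^ 2 * ((r ^ k)⁻¹ * Te N r * Real.exp (-A1 N r)) ≤
      ((df (T N) k : ℤ) : ℝ)) : ERR N k := by
  have a := h N (N - 2) k r hN (by omega) (by omega) hr hr1
  have b := h N (N - 1) k r hN (by omega) (by omega) hr hr1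
  have c := h N N k r hN (by omega) (by omega) hr hr1
  rw [U_self, one_mul] at c
  unfold ERR
  have key : (((N : ℤ) ^ 2 * (|df (U (N - 2) N * Q (N - 2)) k| +
      |df (U (N - 1) N * Q (N - 1)) k| + |df (Q N) k|) : ℤ) : ℝ) ≤
      ((2 * df (T N) k : ℤ) : ℝ) := by
    push_cast
    set E : ℝ := (r ^ k)⁻¹ * Te N r * Real.exp (-A1 N r) with hE
    have hN2 : (0 : ℝ) ≤ (N : ℝ) ^ 2 := by positivity
    have h3 : |((df (U (N - 2) N * Q (N - 2)) k : ℤ) : ℝ)| +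
        |((df (U (N - 1) N * Q (N - 1)) k : ℤ) : ℝ)| + |((df (Q N) k : ℤ) : ℝ)| ≤ 6 * E := by
      have e1 : 2 * (r ^ k)⁻¹ * Te N r * Real.exp (-A1 N r) = 2 * E := by rw [hE]; ring
      rw [e1] at a b c
      linarith
    calc (N : ℝ) ^ 2 * (|((df (U (N - 2) N * Q (N - 2)) k : ℤ) : ℝ)| +
        |((df (U (N - 1) N * Q (N - 1)) k : ℤ) : ℝ)| + |((df (Q N) k : ℤ) : ℝ)|)
        ≤ (N : ℝ) ^ 2 * (6 * E) := mul_le_mul_of_nonneg_left h3 hN2
      _ = 2 * (3 * (N : ℝ) ^ 2 * E) := by ring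
      _ ≤ 2 * ((df (T N) k : ℤ) : ℝ) := by linarith
  exact_mod_cast key

theorem pb_core (h1 : M1Stmt) (h2 : PBStmt) (h3 : MOAStmt) (N k t : ℕ) (B r : ℝ) (ht : 1 ≤ t)
    (hN : 6 * t + 100 ≤ N) (hB : 1 ≤ B) (hB4 : 4 * B ≤ (dU (N - 6 * t) N : ℝ)) (hr : 0 < r)
    (hr1 : r < 1) (hk : 2 * k ≤ dg N) (hkB : (k : ℝ) = B + mu (N - 6 * t) r)
    (hva : va (N - 6 * t) r + 1 ≤ B ^ 2)
    (hlog : Real.log (3 * (N : ℝ) ^ 2) + ((6 * t : ℕ) : ℝ) * Real.log (1 / (1 - r)) +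
      2 * B * Real.log (1 / r) + 2 * Real.log B ≤ A1 N r) : ERR N k := by
  have hpb := h2 t N k B r ht hN hB hB4 hr hr1.le hk
  obtain ⟨-, hTpos, -, -, hTe⟩ := h3
  have hTN := hTe (6 * t) N r (by omega) hr hr1
  have hTp := hTpos (N - 6 * t) r hr
  refine err_of h1 N k r (by omega) hr hr1 (le_trans ?_ hpb)
  have hz : (k : ℝ) - B - mu (N - 6 * t) r = 0 := by rw [hkB]; ring
  rw [hz]
  have hB0 : 0 < B := by linarith
  have hNpos : (0 : ℝ) < N := by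
    have : 0 < N := by omega
    exact_mod_cast this
  have h1r : 0 < 1 - r := by linarith
  have hrk : 0 < (r ^ k)⁻¹ := by positivity
  have hexp : 3 * (N : ℝ) ^ 2 * ((1 / (1 - r)) ^ (6 * t) * Real.exp (-A1 N r)) ≤
      r ^ (2 * B) / B ^ 2 := by
    have e1 : 3 * (N : ℝ) ^ 2 = Real.exp (Real.log (3 * (N : ℝ) ^ 2)) :=
      (Real.exp_log (by positivity)).symm
    have e2 : (1 / (1 - r)) ^ (6 * t) =
        Real.exp (((6 * t : ℕ) : ℝ) * Real.log (1 / (1 - r))) := by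
      rw [Real.exp_nat_mul, Real.exp_log (by positivity)]
    have e3 : r ^ (2 * B) / B ^ 2 =
        Real.exp (-(2 * B * Real.log (1 / r)) - 2 * Real.log B) := by
      rw [Real.exp_sub, Real.rpow_def_of_pos hr]
      congr 1
      · rw [one_div, Real.log_inv]; ring_nf
      · rw [mul_comm, ← Real.rpow_def_of_pos hB0]
        norm_cast
    rw [e3]
    calc 3 * (N : ℝ) ^ 2 * ((1 / (1 - r)) ^ (6 * t) * Real.exp (-A1 N r))
        = Real.exp (Real.log (3 * (N : ℝ) ^ 2)) *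
          (Real.exp (((6 * t : ℕ) : ℝ) * Real.log (1 / (1 - r))) * Real.exp (-A1 N r)) := by
          rw [← e1, ← e2]
      _ = Real.exp (Real.log (3 * (N : ℝ) ^ 2) +
          (((6 * t : ℕ) : ℝ) * Real.log (1 / (1 - r)) + -A1 N r)) := by
          rw [← Real.exp_add, ← Real.exp_add]
      _ ≤ _ := Real.exp_le_exp.2 (by linarith)
  calc 3 * (N : ℝ) ^ 2 * ((r ^ k)⁻¹ * Te N r * Real.exp (-A1 N r))
      ≤ 3 * (N : ℝ) ^ 2 * ((r ^ k)⁻¹ * ((1 / (1 - r)) ^ (6 * t) * Te (N - 6 * t) r) *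
        Real.exp (-A1 N r)) := by gcongr
    _ = (3 * (N : ℝ) ^ 2 * ((1 / (1 - r)) ^ (6 * t) * Real.exp (-A1 N r))) *
        ((r ^ k)⁻¹ * Te (N - 6 * t) r) := by ring
    _ ≤ (r ^ (2 * B) / B ^ 2) * ((r ^ k)⁻¹ * Te (N - 6 * t) r) := by gcongr
    _ = r ^ (2 * B) / B ^ 2 * (r ^ k)⁻¹ * Te (N - 6 * t) r * 1 := by ring
    _ ≤ _ := by
      refine mul_le_mul_of_nonneg_left (by linarith) ?_
      have : 0 ≤ r ^ (2 * B) := Real.rpow_nonneg hr.le _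
      positivity

end Pool.Agent.H37.UM.H59c
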