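import Pool.Agent.H59.UM.Common

set_option autoImplicit false

namespace Pool.Agent.H37.UM

open PowerSeries Finset

theorem P1X_thm (hM1 : M1Stmt) (hPB : PBStmt) (hMOA : MOAStmt) (hMOB : MOBStmt) (hVA : VAStmt)
    (hDUB : DUBStmt) (hIP1 : IP1Stmt) (_hUU : UUStmt) : P1XStmt := by
  intro N k r1 hN hk hcase hr1 hkr
  obtain ⟨-, hmu0, -, hmu1, -, hmuc⟩ := hMOB
  have hNR : (250 : ℝ) ≤ (N : ℝ) := by exact_mod_cast hN
  have hsq : √(N : ℝ) * √(N : ℝ) = N := Real.mul_self_sqrt (by linarith)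
  have hs15 : (15 : ℝ) ≤ √(N : ℝ) := by
    apply Real.le_sqrt_of_sq_le; linarith
  have hspos : (0 : ℝ) < √(N : ℝ) := by linarith
  have h6 : 0.6 / √(N : ℝ) ≤ 0.04 := by
    rw [div_le_iff₀ hspos]; linarith
  have h6' : 0 < 0.6 / √(N : ℝ) := by positivity
  have hkR : (62 : ℝ) ≤ (k : ℝ) := by
    rcases hcase with h | h
    · have : 300 < k := h.2
      have : (300 : ℝ) < k := by exact_mod_cast this
      linarith
    · have h1 : (N : ℝ) < 4 * k := by exact_mod_cast h.2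
      linarith
  -- the lower end
  set r0 : ℝ := 1 / (N : ℝ) ^ 2 with hr0
  have hr0pos : 0 < r0 := by positivity
  have hr0le : r0 ≤ 1 / 2 := by
    rw [hr0, div_le_div_iff₀ (by positivity) (by norm_num)]; nlinarith
  have hr01 : r0 ≤ r1 := by rw [hr1]; linarith
  have hcont : ContinuousOn (fun r => B1 N r + mu (N - 6) r) (Set.Icc r0 r1) := by
    refine ContinuousOn.add ?_ ?_
    · unfold B1
      refine ContinuousOn.add (ContinuousOn.div (by fun_prop) (by fun_prop) ?_) continuousOn_const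
      intro x hx
      have := hx.2
      have h1 : x < 1 := by rw [hr1] at this; linarith
      linarith
    · exact (hmuc (N - 6)).mono (fun x hx => lt_of_lt_of_le hr0pos hx.1)
  have hN6 : ((N - 6 : ℕ) : ℝ) ≤ N := by exact_mod_cast Nat.sub_le N 6
  have hlow : B1 N r0 + mu (N - 6) r0 ≤ (k : ℝ) := by
    have e1 : √((N : ℝ) * r0) ≤ 1 := by
      rw [Real.sqrt_le_one]
      rw [hr0, mul_one_div, div_le_one (by positivity)]; nlinarith
    have e2 : (1 : ℝ) / 2 ≤ 1 - r0 := by linarith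
    have e3 : √((N : ℝ) * r0) / (1 - r0) ≤ 2 := by
      rw [div_le_iff₀ (by linarith)]; linarith
    have e4 := hmu1 (N - 6) r0 hr0pos (by linarith)
    have e5 : ((N - 6 : ℕ) : ℝ) * r0 / (1 - r0) ≤ 2 := by
      rw [div_le_iff₀ (by linarith)]
      have : ((N - 6 : ℕ) : ℝ) * r0 ≤ N * r0 := by gcongr
      have h7 : (N : ℝ) * r0 ≤ 1 := by
        rw [hr0, mul_one_div, div_le_one (by positivity)]; nlinarith
      linarith
    unfold B1
    linarith
  obtain ⟨r, ⟨hra, hrb⟩, hrk⟩ : (k : ℝ) ∈ (fun r => B1 N r + mu (N - 6) r) '' Set.Icc r0 r1 :=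
    intermediate_value_Icc hr01 hcont ⟨hlow, hkr⟩
  have hrk' : (k : ℝ) = B1 N r + mu (N - 6) r := hrk.symm
  have hr : 0 < r := lt_of_lt_of_le hr0pos hra
  have hrle : r ≤ 1 - 0.6 / √(N : ℝ) := by rw [hr1] at hrb; exact hrb
  have hrlt : r < 1 := by linarith
  have h1r : 0.6 / √(N : ℝ) ≤ 1 - r := by linarith
  have h1rp : 0 < 1 - r := by linarith
  have hNr0 : 0 ≤ (N : ℝ) * r := by positivity
  have hBge : 1 ≤ B1 N r := by
    unfold B1
    have : 0 ≤ √((N : ℝ) * r) / (1 - r) := by positivity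
    linarith
  have hBsq : (B1 N r - 1) ^ 2 = N * r / (1 - r) ^ 2 := by
    unfold B1
    rw [add_sub_cancel_right, div_pow, Real.sq_sqrt hNr0]
  have hBle : B1 N r ≤ N / 0.6 + 1 := by
    unfold B1
    have e1 : √((N : ℝ) * r) ≤ √(N : ℝ) := Real.sqrt_le_sqrt (by nlinarith)
    have e2 : √((N : ℝ) * r) / (1 - r) ≤ √(N : ℝ) / (0.6 / √(N : ℝ)) := by gcongr
    have e3 : √(N : ℝ) / (0.6 / √(N : ℝ)) = N / 0.6 := by
      rw [div_div_eq_mul_div, hsq]
    linarith
  have hdU := hDUB.1 N (by omega)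
  have hdUR : 15 * (N : ℝ) ≤ 2 * (dU (N - 6) N : ℝ) + 51 := by exact_mod_cast hdU
  have hmu6 := hmu1 (N - 6) r hr hrlt
  have hmu6' : mu (N - 6) r ≤ N * r / (1 - r) := by
    refine le_trans hmu6 ?_
    gcongr
  have hip := hIP1 N r hN hr hrle (by
    rcases hcase with h | h
    · left
      refine ⟨h.1, ?_⟩
      have h2 : 301 ≤ k := h.2
      have h3 : (301 : ℝ) ≤ k := by exact_mod_cast h2
      linarith
    · right
      refine ⟨h.1, ?_⟩
      have h1 : (N : ℝ) < 4 * k := by exact_mod_cast h.2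
      linarith)
  have hvr := hVA.1 (N - 6) r hr hrlt
  have hvr' : va (N - 6) r ≤ (B1 N r - 1) ^ 2 := by
    rw [hBsq]
    refine le_trans hvr ?_
    gcongr
  refine H59c.pb_core hM1 hPB hMOA N k 1 (B1 N r) r le_rfl (by omega) hBge ?_ hr hrlt hk hrk' ?_ ?_
  · have : N - 6 * 1 = N - 6 := by omega
    rw [this]
    norm_num at hBle
    linarith
  · have : N - 6 * 1 = N - 6 := by omega
    rw [this]
    nlinarith
  · norm_num
    norm_num at hip
    linarith

end Pool.Agent.H37.UM
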