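import Pool.Agent.H59.UM.B2

set_option autoImplicit false

namespace Pool.Agent.H37.UM

open PowerSeries Finset

theorem P2X_thm (hM1 : M1Stmt) (hPB : PBStmt) (hMOA : MOAStmt) (hMOB : MOBStmt) (hVA : VAStmt)
    (hSG : SGStmt) (hDUB : DUBStmt) (hIP2 : IP2Stmt) (_hUU : UUStmt) : P2XStmt := by
  intro N k r1 hN hk hr1 hkl hku
  obtain ⟨-, hmu0, -, hmu1, hmum, hmuc⟩ := hMOB
  have hNR : (250 : ℝ) ≤ (N : ℝ) := by exact_mod_cast hN
  have hsq : √(N : ℝ) * √(N : ℝ) = N := Real.mul_self_sqrt (by linarith)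
  have hs15 : (15 : ℝ) ≤ √(N : ℝ) := by
    apply Real.le_sqrt_of_sq_le; linarith
  have hspos : (0 : ℝ) < √(N : ℝ) := by linarith
  have hNpos : (0 : ℝ) < N := by linarith
  have h6 : 0.6 / √(N : ℝ) ≤ 0.04 := by
    rw [div_le_iff₀ hspos]; linarith
  have h6' : 0 < 0.6 / √(N : ℝ) := by positivity
  have h2N : 0 < 2 / (N : ℝ) := by positivity
  obtain ⟨t, ht, hb, h100, hlo, hhi⟩ := H59c.b2_facts N hN
  have hdU := H59c.dU_b2 hDUB N hN
  rw [hb] at hku hdU
  set r2 : ℝ := 1 - 2 / (N : ℝ) with hr2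
  have hr12 : r1 ≤ r2 := by
    rw [hr1, hr2]
    have : 2 / (N : ℝ) ≤ 0.6 / √(N : ℝ) := by
      rw [div_le_div_iff₀ hNpos hspos]
      nlinarith
    linarith
  have hr1pos : 0 < r1 := by rw [hr1]; linarith
  have hB0ge : 1 ≤ B0 N := by
    unfold B0; nlinarith
  have hcont : ContinuousOn (fun r => min (B1 N r) (B0 N) + mu (N - 6 * t) r)
      (Set.Icc r1 r2) := by
    refine ContinuousOn.add (ContinuousOn.inf ?_ continuousOn_const) ?_
    · unfold B1
      refine ContinuousOn.add (ContinuousOn.div (by fun_prop) (by fun_prop) ?_) continuousOn_const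
      intro x hx
      have := hx.2
      have h1 : x < 1 := by rw [hr2] at this; linarith
      linarith
    · exact (hmuc (N - 6 * t)).mono (fun x hx => lt_of_lt_of_le hr1pos hx.1)
  have hlow : min (B1 N r1) (B0 N) + mu (N - 6 * t) r1 ≤ (k : ℝ) := by
    have e1 := hmum (N - 6 * t) (N - 6) r1 (by omega) hr1pos
    have e2 := min_le_left (B1 N r1) (B0 N)
    linarith
  have hB1r2 : B0 N ≤ B1 N r2 := by
    unfold B0 B1
    have e1 : (N : ℝ) * r2 = N - 2 := by rw [hr2]; field_simp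
    have e2 : 1 - r2 = 2 / N := by rw [hr2]; ring
    have e3 : 0.52 * √(N : ℝ) ≤ √((N : ℝ) - 2) := by
      apply Real.le_sqrt_of_sq_le
      rw [mul_pow, Real.sq_sqrt hNpos.le]; linarith
    rw [e1, e2, div_div_eq_mul_div]
    have e4 := mul_le_mul_of_nonneg_right e3 hNpos.le
    linarith
  have hhigh : (k : ℝ) ≤ min (B1 N r2) (B0 N) + mu (N - 6 * t) r2 := by
    rw [min_eq_right hB1r2]; exact hku
  obtain ⟨r, ⟨hra, hrb⟩, hrk⟩ : (k : ℝ) ∈
      (fun r => min (B1 N r) (B0 N) + mu (N - 6 * t) r) '' Set.Icc r1 r2 :=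
    intermediate_value_Icc hr12 hcont ⟨hlow, hhigh⟩
  have hrk' : (k : ℝ) = min (B1 N r) (B0 N) + mu (N - 6 * t) r := hrk.symm
  have hr : 0 < r := lt_of_lt_of_le hr1pos hra
  have hrlt : r < 1 := by rw [hr2] at hrb; linarith
  have h1rp : 0 < 1 - r := by linarith
  have hNr0 : 0 ≤ (N : ℝ) * r := by positivity
  have hBge : 1 ≤ B1 N r := by
    unfold B1
    have : 0 ≤ √((N : ℝ) * r) / (1 - r) := by positivity
    linarith
  have hBsq : (B1 N r - 1) ^ 2 = N * r / (1 - r) ^ 2 := by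
    unfold B1
    rw [add_sub_cancel_right, div_pow, Real.sq_sqrt hNr0]
  have hip := hIP2 N r (min (B1 N r) (B0 N)) hN (hr1 ▸ hra) hrb rfl
  rw [hb] at hip
  have hNt : ((N - 6 * t : ℕ) : ℝ) ≤ N := by exact_mod_cast Nat.sub_le N (6 * t)
  have hNt0 : (0 : ℝ) ≤ ((N - 6 * t : ℕ) : ℝ) := by positivity
  refine H59c.pb_core hM1 hPB hMOA N k t (min (B1 N r) (B0 N)) r ht h100
    (le_min hBge hB0ge) ?_ hr hrlt hk hrk' ?_ hip
  · have e2 := min_le_right (B1 N r) (B0 N)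
    have e3 : 4 * B0 N ≤ (dU (N - 6 * t) N : ℝ) := by
      have : 16 * B0 N ≤ √(N : ℝ) * (5 * N - 5 * √(N : ℝ) + 13) := by
        unfold B0
        have h5 : 0 ≤ √(N : ℝ) * (0.84 * N - 5 * √(N : ℝ) + 13) := by
          apply mul_nonneg hspos.le
          nlinarith
        nlinarith
      linarith
    linarith
  · rcases min_cases (B1 N r) (B0 N) with ⟨h, _⟩ | ⟨h, _⟩
    · rw [h]
      have hvr := hVA.1 (N - 6 * t) r hr hrlt
      have hvr' : va (N - 6 * t) r ≤ (B1 N r - 1) ^ 2 := by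
        rw [hBsq]
        refine le_trans hvr ?_
        gcongr
      nlinarith
    · rw [h]
      have hvr := hVA.2.1 (N - 6 * t) r hr hrlt.le
      have hs := hSG.1 (N - 6 * t)
      have h3 : ((N - 6 * t : ℕ) : ℝ) ^ 3 ≤ (N : ℝ) ^ 3 := by gcongr
      have h2 : ((N - 6 * t : ℕ) : ℝ) ^ 2 ≤ (N : ℝ) ^ 2 := by gcongr
      have hB0sq : B0 N ^ 2 = 0.0676 * (N : ℝ) ^ 3 := by
        unfold B0
        rw [mul_pow, mul_pow, Real.sq_sqrt hNpos.le]; ring
      rw [hB0sq]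
      have h4 : 0 ≤ (N : ℝ) ^ 2 * (0.0033 * N - 0.8) := by
        apply mul_nonneg (by positivity); linarith
      have h5 : (N : ℝ) ^ 2 * (0.0033 * N - 0.8) = 0.0033 * (N : ℝ) ^ 3 - 0.8 * (N : ℝ) ^ 2 := by
        ring
      have h6 : (250 : ℝ) ^ 2 ≤ (N : ℝ) ^ 2 := by gcongr
      rw [h5] at h4
      norm_num at h6
      linarith

end Pool.Agent.H37.UM
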